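import Pool.Agent.R33.Chord

/-!
# MP_84806a_co: the lower bound `c (n + g ^ 2) ≤ D(n, g)` fails

For `n = 2 g + 1` every chord diagram of genus `g` reaches, by at most `4 g` genus-preserving chord
swaps, the diagram with chords `{4j, 4j+2}`, `{4j+1, 4j+3}` (`j < g`) and `{4g, 4g+1}`.
-/

set_option autoImplicit false

namespace Pool.Agent.Results.MP_84806a_co.SmallDiameter

open Equiv Equiv.Perm Pool.Agent.R33.Cycles Pool.Agent.R33.Chord

/-- The number of classes of polygon vertices after the gluing. Vertex `v` of the polygon is the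
first point of the side `v`, and the last point of the side `v` is the vertex `v + 1`. The side `v`
is glued with the side `α v` with orientation reversed, so the vertex `v` is identified with
the vertex `α v + 1`. -/
noncomputable def numVertices {n : ℕ} (α : Perm (Fin (2 * n))) : ℕ :=
  Nat.card (Quot fun v w : Fin (2 * n) => w = finRotate (2 * n) (α v))

/-- The chord diagrams with `n` chords and genus `g`. -/
abbrev Diagram (n g : ℕ) : Type :=
  {α : Perm (Fin (2 * n)) // IsDiagram α ∧ numVertices α + 2 * g = n + 1}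

/-- A chord swap of a chord swap. -/
theorem isSwap_symm {D : Type} {α β : Perm D} (hα : IsDiagram α) (hβ : IsDiagram β)
    (h : IsSwap α β) : IsSwap β α := by
  obtain ⟨A, C, h1, h2, h3, h4, h5⟩ := h
  have e1 : β C = A := by rw [← h3, (hβ A).1]
  have e2 : β (α C) = α A := by rw [← h4, (hβ _).1]
  refine ⟨A, α A, (hα A).2, ?_, rfl, ?_, ?_⟩
  · rw [h3]; exact h2.symm
  · rw [h3, h4]
  · intro x k1 k2 k3 k4
    rw [h3] at k2
    rw [h4] at k4
    exact (h5 x k1 k3 k2 k4).symm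

/-- The graph `G_{n,g}` of chord swaps. -/
def G (n g : ℕ) : SimpleGraph (Diagram n g) where
  Adj X Y := X ≠ Y ∧ IsSwap X.1 Y.1
  symm := ⟨fun X Y h => ⟨h.1.symm, isSwap_symm X.2.1 Y.2.1 h.2⟩⟩
  loopless := ⟨fun _ h => h.1 rfl⟩

/-- The largest distance between two diagrams in the same component of `G_{n,g}`. -/
noncomputable def D (n g : ℕ) : ℕ :=
  sSup {d : ℕ | ∃ X Y : Diagram n g, (G n g).Reachable X Y ∧ d = (G n g).dist X Y}

theorem numVertices_eq {n : ℕ} (α : Perm (Fin (2 * n))) :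
    numVertices α = nc (finRotate (2 * n) * α) := by
  unfold numVertices nc
  refine Nat.card_congr ⟨Quot.map id ?_, Quotient.lift (fun v => Quot.mk _ v) ?_, ?_, ?_⟩
  · rintro v w rfl
    exact same_next (finRotate (2 * n) * α) v
  · intro v w h
    have h' : SameCycle (finRotate (2 * n) * α) v w := h
    refine closed_same (P := fun w => Quot.mk _ v = Quot.mk _ w) ?_ h' rfl
    intro w hw
    rw [hw]
    exact Quot.sound rfl
  · rintro ⟨v⟩
    rfl
  · rintro ⟨v⟩
    rfl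

theorem St_ne {D : Type} {ρ : Perm D} {F : Set D} {α β : Perm D} (h : St ρ F α β) : α ≠ β := by
  rintro rfl
  obtain ⟨A, C, h1, h2, h3, -, -⟩ := h.2.2.1
  exact h2 h3.symm

/-- The set of positions `< 4 i`. -/
def Pos (m i : ℕ) : Set (Fin m) := {f | f.val < 4 * i}

/-- The first `i` handles are in place. -/
def Hnd {m : ℕ} (α : Perm (Fin m)) (i : ℕ) : Prop :=
  ∀ j, j < i → ∀ a b c d : Fin m, a.val = 4 * j → b.val = 4 * j + 1 → c.val = 4 * j + 2 →
    d.val = 4 * j + 3 → α a = c ∧ α b = d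

theorem rot_val {m : ℕ} (a b : Fin m) (h : b.val = a.val + 1) : finRotate m a = b := by
  cases m with
  | zero => exact a.elim0
  | succ m =>
    apply Fin.ext
    rw [h, coe_finRotate_of_ne_last]
    intro hl
    have := b.2
    rw [h, hl, Fin.val_last] at this
    omega

theorem Hnd.closed {m : ℕ} {α : Perm (Fin m)} (hα : IsDiagram α) {i : ℕ} (hi : 4 * i ≤ m)
    (h : Hnd α i) (f : Fin m) (hf : f ∈ Pos m i) :
    α f ∈ Pos m i ∧ SameCycle (finRotate m * α) f (α f) := by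
  have hf' : f.val < 4 * i := hf
  obtain ⟨j, hj⟩ : ∃ j, j = f.val / 4 := ⟨_, rfl⟩
  have hji : j < i := by omega
  obtain ⟨a, ha⟩ : ∃ a : Fin m, a.val = 4 * j := ⟨⟨4 * j, by omega⟩, rfl⟩
  obtain ⟨b, hb⟩ : ∃ a : Fin m, a.val = 4 * j + 1 := ⟨⟨4 * j + 1, by omega⟩, rfl⟩
  obtain ⟨c, hc⟩ : ∃ a : Fin m, a.val = 4 * j + 2 := ⟨⟨4 * j + 2, by omega⟩, rfl⟩
  obtain ⟨d, hd⟩ : ∃ a : Fin m, a.val = 4 * j + 3 := ⟨⟨4 * j + 3, by omega⟩, rfl⟩
  obtain ⟨h1, h2⟩ := h j hji a b c d ha hb hc hd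
  have h3 : α c = a := by rw [← h1, (hα a).1]
  have h4 : α d = b := by rw [← h2, (hα b).1]
  have s1 : SameCycle (finRotate m * α) a d := by
    have := same_next (finRotate m * α) a
    rwa [Perm.mul_apply, h1, rot_val c d (by omega)] at this
  have s2 : SameCycle (finRotate m * α) d c := by
    have := same_next (finRotate m * α) d
    rwa [Perm.mul_apply, h4, rot_val b c (by omega)] at this
  have s3 : SameCycle (finRotate m * α) c b := by
    have := same_next (finRotate m * α) c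
    rwa [Perm.mul_apply, h3, rot_val a b (by omega)] at this
  have hcase : f = a ∨ f = b ∨ f = c ∨ f = d := by
    have : f.val = a.val ∨ f.val = b.val ∨ f.val = c.val ∨ f.val = d.val := by omega
    rcases this with h | h | h | h
    · exact Or.inl (Fin.ext h)
    · exact Or.inr (Or.inl (Fin.ext h))
    · exact Or.inr (Or.inr (Or.inl (Fin.ext h)))
    · exact Or.inr (Or.inr (Or.inr (Fin.ext h)))
  rcases hcase with rfl | rfl | rfl | rfl
  · rw [h1]
    exact ⟨show c.val < 4 * i by omega, s1.trans s2⟩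
  · rw [h2]
    exact ⟨show d.val < 4 * i by omega, (s3.symm.trans s2.symm)⟩
  · rw [h3]
    exact ⟨show a.val < 4 * i by omega, (s1.trans s2).symm⟩
  · rw [h4]
    exact ⟨show b.val < 4 * i by omega, s2.trans s3⟩

theorem rot_same {m : ℕ} (a b : Fin m) : SameCycle (finRotate m) a b := by
  have key : ∀ k : ℕ, ∀ a b : Fin m, b.val = a.val + k → SameCycle (finRotate m) a b := by
    intro k
    induction k with
    | zero =>
      intro a b h
      rw [Fin.ext (show b.val = a.val by omega)]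
    | succ k ih =>
      intro a b h
      have hc : a.val + k < m := by have := b.2; omega
      have h1 := ih a ⟨a.val + k, hc⟩ rfl
      have h2 := same_next (finRotate m) ⟨a.val + k, hc⟩
      rw [rot_val ⟨a.val + k, hc⟩ b (by simp only; omega)] at h2
      exact h1.trans h2
  rcases Nat.le_total a.val b.val with h | h
  · exact key (b.val - a.val) a b (by omega)
  · exact (key (a.val - b.val) b a (by omega)).symm

/-- One more handle. -/
theorem stage {m : ℕ} {α : Perm (Fin m)} (hα : IsDiagram α) {i : ℕ} (hi : 4 * i + 4 ≤ m)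
    (h2 : nc (finRotate m * α) = 2) (h : Hnd α i) :
    ∃ β, W (finRotate m) (Pos m i) 4 α β ∧ Hnd β (i + 1) := by
  obtain ⟨p, hp⟩ : ∃ a : Fin m, a.val = 4 * i := ⟨⟨4 * i, by omega⟩, rfl⟩
  obtain ⟨q, hq⟩ : ∃ a : Fin m, a.val = 4 * i + 1 := ⟨⟨4 * i + 1, by omega⟩, rfl⟩
  obtain ⟨r, hr⟩ : ∃ a : Fin m, a.val = 4 * i + 2 := ⟨⟨4 * i + 2, by omega⟩, rfl⟩
  obtain ⟨s, hs⟩ : ∃ a : Fin m, a.val = 4 * i + 3 := ⟨⟨4 * i + 3, by omega⟩, rfl⟩
  have e1 : finRotate m p = q := rot_val p q (by omega)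
  have e2 : finRotate m q = r := rot_val q r (by omega)
  have e3 : finRotate m r = s := rot_val r s (by omega)
  have hpq : p ≠ q := fun h => by rw [h] at hp; omega
  have hpr : p ≠ r := fun h => by rw [h] at hp; omega
  have hps : p ≠ s := fun h => by rw [h] at hp; omega
  have hqr : q ≠ r := fun h => by rw [h] at hq; omega
  have hqs : q ≠ s := fun h => by rw [h] at hq; omega
  have hrs : r ≠ s := fun h => by rw [h] at hr; omega
  have fp : p ∉ Pos m i := fun h => by have : p.val < 4 * i := h; omega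
  have fq : q ∉ Pos m i := fun h => by have : q.val < 4 * i := h; omega
  have fr : r ∉ Pos m i := fun h => by have : r.val < 4 * i := h; omega
  have fs : s ∉ Pos m i := fun h => by have : s.val < 4 * i := h; omega
  have hcl := h.closed hα (by omega)
  obtain ⟨β, hβ, hb⟩ := leaf rot_same hα e1 e2 hpq hpr hqr h2.ge (fun f hf => (hcl f hf).1)
    (fun f hf => (hcl f hf).2) fp fq fr
  obtain ⟨b1, b2, b3⟩ := hβ.facts hα
  obtain ⟨γ, hγ, g1, g2⟩ := handle b1 e1 e2 e3 hpq hpr hqr hps hqs hrs (b2.trans h2) hb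
    (fun f hf => by rw [b3 f hf]; exact (hcl f hf).1) fp fq fr fs
  obtain ⟨c1, c2, c3⟩ := hγ.facts b1
  refine ⟨γ, hβ.trans hγ, ?_⟩
  intro j hj a b c d ha hb' hc hd
  rcases Nat.lt_or_ge j i with hji | hji
  · have fa : a ∈ Pos m i := show a.val < 4 * i by omega
    have fb : b ∈ Pos m i := show b.val < 4 * i by omega
    rw [c3 a fa, b3 a fa, c3 b fb, b3 b fb]
    exact h j hji a b c d ha hb' hc hd
  · have hji' : j = i := by omega
    subst hji'
    have : a = p := Fin.ext (by omega)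
    subst this
    have : b = q := Fin.ext (by omega)
    subst this
    have : c = r := Fin.ext (by omega)
    subst this
    have : d = s := Fin.ext (by omega)
    subst this
    exact ⟨g1, g2⟩

/-- All the handles. -/
theorem stages {g : ℕ} {α : Perm (Fin (2 * (2 * g + 1)))} (hα : IsDiagram α)
    (h2 : nc (finRotate _ * α) = 2) (i : ℕ) (hi : i ≤ g) :
    ∃ β, W (finRotate _) ∅ (4 * i) α β ∧ Hnd β i := by
  induction i with
  | zero => exact ⟨α, W.refl _ _, fun j hj => absurd hj (Nat.not_lt_zero _)⟩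
  | succ i ih =>
    obtain ⟨β, hβ, hb⟩ := ih (by omega)
    obtain ⟨b1, b2, b3⟩ := hβ.facts hα
    obtain ⟨γ, hγ, hg⟩ := stage b1 (by omega) (b2.trans h2) hb
    exact ⟨γ, hβ.trans (hγ.mono (Set.empty_subset _)), hg⟩

theorem Hnd.unique {g : ℕ} {α β : Perm (Fin (2 * (2 * g + 1)))} (hα : IsDiagram α)
    (hβ : IsDiagram β) (ha : Hnd α g) (hb : Hnd β g) : α = β := by
  have key : ∀ {α : Perm (Fin (2 * (2 * g + 1)))}, IsDiagram α → Hnd α g →
      ∀ x y : Fin (2 * (2 * g + 1)), x.val = 4 * g → y.val = 4 * g + 1 → α x = y := by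
    intro α hα ha x y hx hy
    have h1 : ¬ (α x).val < 4 * g := by
      intro h
      have h2 := (ha.closed hα (by omega) (α x) h).1
      rw [(hα x).1] at h2
      have : x.val < 4 * g := h2
      omega
    have h2 := (α x).2
    have h3 : (α x).val ≠ x.val := fun h => (hα x).2 (Fin.ext h)
    exact Fin.ext (by omega)
  have sub : ∀ x : Fin (2 * (2 * g + 1)), x.val < 4 * g → α x = β x := by
    intro f hf'
    obtain ⟨j, hj⟩ : ∃ j, j = f.val / 4 := ⟨_, rfl⟩
    have hji : j < g := by omega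
    obtain ⟨a, ha'⟩ : ∃ a : Fin (2 * (2 * g + 1)), a.val = 4 * j := ⟨⟨4 * j, by omega⟩, rfl⟩
    obtain ⟨b, hb'⟩ : ∃ a : Fin (2 * (2 * g + 1)), a.val = 4 * j + 1 :=
      ⟨⟨4 * j + 1, by omega⟩, rfl⟩
    obtain ⟨c, hc'⟩ : ∃ a : Fin (2 * (2 * g + 1)), a.val = 4 * j + 2 :=
      ⟨⟨4 * j + 2, by omega⟩, rfl⟩
    obtain ⟨d, hd'⟩ : ∃ a : Fin (2 * (2 * g + 1)), a.val = 4 * j + 3 :=
      ⟨⟨4 * j + 3, by omega⟩, rfl⟩
    obtain ⟨h1, h2⟩ := ha j hji a b c d ha' hb' hc' hd'
    obtain ⟨k1, k2⟩ := hb j hji a b c d ha' hb' hc' hd'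
    have hcase : f = a ∨ f = b ∨ f = c ∨ f = d := by
      have : f.val = a.val ∨ f.val = b.val ∨ f.val = c.val ∨ f.val = d.val := by omega
      rcases this with h | h | h | h
      · exact Or.inl (Fin.ext h)
      · exact Or.inr (Or.inl (Fin.ext h))
      · exact Or.inr (Or.inr (Or.inl (Fin.ext h)))
      · exact Or.inr (Or.inr (Or.inr (Fin.ext h)))
    rcases hcase with rfl | rfl | rfl | rfl
    · rw [h1, k1]
    · rw [h2, k2]
    · rw [← h1, (hα a).1, h1, ← k1, (hβ a).1]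
    · rw [← h2, (hα b).1, h2, ← k2, (hβ b).1]
  apply Equiv.ext
  intro x
  rcases Nat.lt_or_ge x.val (4 * g) with h | h
  · exact sub x h
  · have hx := x.2
    obtain ⟨u, hu⟩ : ∃ a : Fin (2 * (2 * g + 1)), a.val = 4 * g := ⟨⟨4 * g, by omega⟩, rfl⟩
    obtain ⟨v, hv⟩ : ∃ a : Fin (2 * (2 * g + 1)), a.val = 4 * g + 1 :=
      ⟨⟨4 * g + 1, by omega⟩, rfl⟩
    have h1 := key hα ha u v hu hv
    have h2 := key hβ hb u v hu hv
    have hcase : x = u ∨ x = v := by
      have : x.val = u.val ∨ x.val = v.val := by omega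
      rcases this with h | h
      · exact Or.inl (Fin.ext h)
      · exact Or.inr (Fin.ext h)
    rcases hcase with rfl | rfl
    · rw [h1, h2]
    · rw [← h1, (hα u).1, h1, ← h2, (hβ u).1]

/-- From swaps to walks. -/
theorem walk_of_W {n g k : ℕ} {α β : Perm (Fin (2 * n))}
    (h : W (finRotate (2 * n)) ∅ k α β) :
    ∀ X : Diagram n g, X.1 = α → ∃ Y : Diagram n g, Y.1 = β ∧
      ∃ w : (G n g).Walk X Y, w.length ≤ k := by
  induction h with
  | refl k α => exact fun X hX => ⟨X, hX, SimpleGraph.Walk.nil, Nat.zero_le _⟩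
  | step k α β γ h _ ih =>
    rintro X rfl
    obtain ⟨Z, hZ⟩ : ∃ Z : Diagram n g, Z.1 = β :=
      ⟨⟨β, h.1, by
        have := X.2.2
        rw [numVertices_eq] at this ⊢
        rw [h.2.1]
        exact this⟩, rfl⟩
    obtain ⟨Y, hY, w, hw⟩ := ih Z hZ
    have hadj : (G n g).Adj X Z := by
      refine ⟨fun hXZ => St_ne h ?_, ?_⟩
      · rw [← hZ, hXZ]
      · rw [hZ]; exact h.2.2.1
    exact ⟨Y, hY, SimpleGraph.Walk.cons hadj w, by
      rw [SimpleGraph.Walk.length_cons]; omega⟩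

/-- Any two diagrams are within distance `8 g` of each other. -/
theorem close (g : ℕ) (X Y : Diagram (2 * g + 1) g) :
    ∃ w : (G (2 * g + 1) g).Walk X Y, w.length ≤ 8 * g := by
  have hX : nc (finRotate _ * X.1) = 2 := by
    have := X.2.2
    rw [numVertices_eq] at this
    omega
  have hY : nc (finRotate _ * Y.1) = 2 := by
    have := Y.2.2
    rw [numVertices_eq] at this
    omega
  obtain ⟨β, hβ, hb⟩ := stages X.2.1 hX g le_rfl
  obtain ⟨γ, hγ, hg⟩ := stages Y.2.1 hY g le_rfl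
  have hβ1 := (hβ.facts X.2.1).1
  have hγ1 := (hγ.facts Y.2.1).1
  have e : β = γ := hb.unique hβ1 hγ1 hg
  subst e
  obtain ⟨Z, hZ, w, hw⟩ := walk_of_W hβ X rfl
  obtain ⟨Z', hZ', w', hw'⟩ := walk_of_W hγ Y rfl
  have : Z = Z' := Subtype.ext (hZ.trans hZ'.symm)
  subst this
  refine ⟨w.append w'.reverse, ?_⟩
  rw [SimpleGraph.Walk.length_append, SimpleGraph.Walk.length_reverse]
  omega

theorem D_le (g : ℕ) : D (2 * g + 1) g ≤ 8 * g := by
  apply csSup_le'
  rintro d ⟨X, Y, -, rfl⟩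
  obtain ⟨w, hw⟩ := close g X Y
  exact (SimpleGraph.dist_le w).trans hw

/-- There are no constants `0 < c ≤ C` with `c (n + g ^ 2) ≤ D(n, g) ≤ C (n + g ^ 2)` for all
`n ≥ 3` and `0 ≤ g ≤ n / 2`: for `n = 2 g + 1` all distances in `G_{n,g}` are at
most `8 g`. -/
theorem result :
    (∀ g : ℕ, (G (2 * g + 1) g).Preconnected ∧ D (2 * g + 1) g ≤ 8 * g) ∧
    ¬ ∃ c C : ℝ, 0 < c ∧ c ≤ C ∧ ∀ n g : ℕ, 3 ≤ n → 2 * g ≤ n →
      c * ((n : ℝ) + (g : ℝ) ^ 2) ≤ (D n g : ℝ) ∧
      (D n g : ℝ) ≤ C * ((n : ℝ) + (g : ℝ) ^ 2) := by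
  refine ⟨fun g => ⟨fun X Y => ?_, D_le g⟩, ?_⟩
  · obtain ⟨w, -⟩ := close g X Y
    exact ⟨w⟩
  · rintro ⟨c, C, hc, -, h⟩
    obtain ⟨g, hg⟩ := exists_nat_gt (8 / c)
    have h1 := (h (2 * (g + 1) + 1) (g + 1) (by omega) (by omega)).1
    have h2 : (D (2 * (g + 1) + 1) (g + 1) : ℝ) ≤ 8 * ((g : ℝ) + 1) := by
      have := D_le (g + 1)
      exact_mod_cast this
    rw [div_lt_iff₀ hc] at hg
    push_cast at h1
    have hg0 : (0 : ℝ) ≤ g := Nat.cast_nonneg g
    have h3 : c * ((g : ℝ) + 1) ^ 2 ≤ 8 * ((g : ℝ) + 1) := by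
      have h4 : 0 ≤ c * (2 * ((g : ℝ) + 1) + 1) := by positivity
      nlinarith
    have h5 : 8 * ((g : ℝ) + 1) < c * ((g : ℝ) + 1) ^ 2 := by
      have h6 : (8 : ℝ) < c * ((g : ℝ) + 1) := by nlinarith
      have h7 : 0 < (g : ℝ) + 1 := by positivity
      nlinarith [mul_lt_mul_of_pos_right h6 h7]
    linarith

end Pool.Agent.Results.MP_84806a_co.SmallDiameter
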